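import Mathlib

set_option autoImplicit false

/-!
# μ-compact closed bounded convex subsets of `ℓ_p` and `L_p`, `1 < p < ∞`, are compact
-/

namespace Pool.Agent.Results.MP_5b7a98_an.LpCompact

open MeasureTheory Filter Topology Set
open scoped BoundedContinuousFunction ENNReal NNReal

/-- The set `A` is μ-compact: for each compact `K ⊆ A` the set of Borel probability measures on
`A` whose barycentre belongs to `K` is compact in the weak topology of measures. -/
def MuCompact {E : Type*} [NormedAddCommGroup E] [NormedSpace ℝ E] (A : Set E) : Prop :=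
  letI : MeasurableSpace A := borel A
  haveI : BorelSpace A := ⟨rfl⟩
  ∀ K : Set E, IsCompact K → K ⊆ A →
    IsCompact {μ : ProbabilityMeasure A | ∫ x : A, (x : E) ∂(μ : Measure A) ∈ K}

/-- Each μ-compact closed bounded convex subset of `E` is compact. -/
def MuCompactSetsCompact (E : Type*) [NormedAddCommGroup E] [NormedSpace ℝ E] : Prop :=
  ∀ A : Set E, IsClosed A → Bornology.IsBounded A → Convex ℝ A → MuCompact A → IsCompact A

/-! ### The pointwise inequality -/

theorem mid_lt {p : ℝ} (hp : 1 < p) {a b : ℝ} (hab : a ≠ b) :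
    |(a + b) / 2| ^ p < (|a| ^ p + |b| ^ p) / 2 := by
  have hp0 : 0 < p := by linarith
  rcases eq_or_ne |a| |b| with h | h
  · have : a = -b := by
      rcases abs_eq_abs.1 h with h | h
      · exact absurd h hab
      · exact h
    subst this
    have hb : b ≠ 0 := by
      rintro rfl
      simp at hab
    have : 0 < |b| ^ p := Real.rpow_pos_of_pos (abs_pos.2 hb) p
    simp only [neg_add_cancel, zero_div, abs_zero, abs_neg]
    rw [Real.zero_rpow hp0.ne']
    linarith
  · have h1 := (strictConvexOn_rpow hp).2 (Set.mem_Ici.2 (abs_nonneg a))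
      (Set.mem_Ici.2 (abs_nonneg b)) h (by norm_num : (0 : ℝ) < 1 / 2)
      (by norm_num : (0 : ℝ) < 1 / 2) (by norm_num)
    simp only [smul_eq_mul] at h1
    have h2 : |(a + b) / 2| ≤ 1 / 2 * |a| + 1 / 2 * |b| := by
      rw [abs_div, abs_of_pos (by norm_num : (0 : ℝ) < 2)]
      have := abs_add_le a b
      linarith
    calc |(a + b) / 2| ^ p ≤ (1 / 2 * |a| + 1 / 2 * |b|) ^ p :=
          Real.rpow_le_rpow (abs_nonneg _) h2 hp0.le
      _ < 1 / 2 * |a| ^ p + 1 / 2 * |b| ^ p := h1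
      _ = _ := by ring

theorem mid_le {p : ℝ} (hp : 1 < p) (a b : ℝ) :
    |(a + b) / 2| ^ p ≤ (|a| ^ p + |b| ^ p) / 2 := by
  rcases eq_or_ne a b with rfl | h
  · have : (a + a) / 2 = a := by ring
    rw [this]
    linarith
  · exact (mid_lt hp h).le

theorem pw {p : ℝ} (hp : 1 < p) {ε : ℝ} (hε : 0 < ε) : ∃ C : ℝ, 0 ≤ C ∧ ∀ a b : ℝ,
    |a - b| ^ p ≤ ε * (|a| ^ p + |b| ^ p) +
      C * ((|a| ^ p + |b| ^ p) / 2 - |(a + b) / 2| ^ p) := by
  have hp0 : 0 < p := by linarith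
  let S : Set (ℝ × ℝ) := {z | |z.1| ^ p + |z.2| ^ p = 1 ∧ ε ≤ |z.1 - z.2| ^ p}
  have hcont1 : Continuous fun z : ℝ × ℝ => |z.1| ^ p + |z.2| ^ p :=
    (continuous_fst.abs.rpow_const fun _ => Or.inr hp0.le).add
      (continuous_snd.abs.rpow_const fun _ => Or.inr hp0.le)
  have hcont2 : Continuous fun z : ℝ × ℝ => |z.1 - z.2| ^ p :=
    (continuous_fst.sub continuous_snd).abs.rpow_const fun _ => Or.inr hp0.le
  have hcont3 : Continuous fun z : ℝ × ℝ => (1 : ℝ) / 2 - |(z.1 + z.2) / 2| ^ p :=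
    continuous_const.sub
      (((continuous_fst.add continuous_snd).div_const 2).abs.rpow_const fun _ => Or.inr hp0.le)
  have hbd : ∀ z : ℝ × ℝ, |z.1| ^ p + |z.2| ^ p = 1 → |z.1| ≤ 1 ∧ |z.2| ≤ 1 := by
    intro z hz
    have h1 : 0 ≤ |z.1| ^ p := Real.rpow_nonneg (abs_nonneg _) _
    have h2 : 0 ≤ |z.2| ^ p := Real.rpow_nonneg (abs_nonneg _) _
    constructor
    · by_contra hlt
      push Not at hlt
      have := Real.one_lt_rpow hlt hp0
      linarith
    · by_contra hlt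
      push Not at hlt
      have := Real.one_lt_rpow hlt hp0
      linarith
  have hSc : IsCompact S := by
    refine Metric.isCompact_of_isClosed_isBounded ?_ ?_
    · exact (isClosed_eq hcont1 continuous_const).inter (isClosed_le continuous_const hcont2)
    · refine (Metric.isBounded_closedBall (x := (0 : ℝ × ℝ)) (r := 1)).subset ?_
      intro z hz
      obtain ⟨h1, h2⟩ := hbd z hz.1
      rw [mem_closedBall_zero_iff, Prod.norm_def]
      exact max_le h1 h2
  obtain ⟨c, hc, hcS⟩ : ∃ c : ℝ, 0 < c ∧ ∀ z ∈ S, c ≤ (1 : ℝ) / 2 - |(z.1 + z.2) / 2| ^ p := by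
    rcases S.eq_empty_or_nonempty with h | h
    · exact ⟨1, one_pos, by simp [h]⟩
    · obtain ⟨z, hz, hmin⟩ := hSc.exists_isMinOn h hcont3.continuousOn
      refine ⟨_, ?_, fun w hw => hmin hw⟩
      have hne : z.1 ≠ z.2 := by
        intro he
        have := hz.2
        rw [he, sub_self, abs_zero, Real.zero_rpow hp0.ne'] at this
        linarith
      have := mid_lt hp hne
      rw [hz.1] at this
      linarith
  -- normalized inequality
  have hnorm : ∀ z : ℝ × ℝ, |z.1| ^ p + |z.2| ^ p = 1 →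
      |z.1 - z.2| ^ p ≤ ε * 1 + 2 ^ p / c * (1 / 2 - |(z.1 + z.2) / 2| ^ p) := by
    intro z hz
    have hnn : 0 ≤ (1 : ℝ) / 2 - |(z.1 + z.2) / 2| ^ p := by
      have := mid_le hp z.1 z.2
      rw [hz] at this
      linarith
    have h2p : (0 : ℝ) < 2 ^ p := Real.rpow_pos_of_pos two_pos p
    by_cases hS : ε ≤ |z.1 - z.2| ^ p
    · have h1 := hcS z ⟨hz, hS⟩
      have h2 : |z.1 - z.2| ^ p ≤ 2 ^ p := by
        refine Real.rpow_le_rpow (abs_nonneg _) ?_ hp0.le
        obtain ⟨h1, h2⟩ := hbd z hz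
        have := abs_sub z.1 z.2
        linarith
      have h3 : 2 ^ p ≤ 2 ^ p / c * (1 / 2 - |(z.1 + z.2) / 2| ^ p) := by
        rw [div_mul_eq_mul_div, le_div_iff₀ hc]
        exact mul_le_mul_of_nonneg_left h1 h2p.le
      linarith
    · push Not at hS
      have : 0 ≤ 2 ^ p / c * (1 / 2 - |(z.1 + z.2) / 2| ^ p) :=
        mul_nonneg (div_pos h2p hc).le hnn
      linarith
  refine ⟨2 ^ p / c, by positivity, fun a b => ?_⟩
  by_cases h0 : |a| ^ p + |b| ^ p = 0
  · have ha : 0 ≤ |a| ^ p := Real.rpow_nonneg (abs_nonneg _) _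
    have hb : 0 ≤ |b| ^ p := Real.rpow_nonneg (abs_nonneg _) _
    have ha' : |a| ^ p = 0 := by linarith
    have hb' : |b| ^ p = 0 := by linarith
    rw [Real.rpow_eq_zero (abs_nonneg _) hp0.ne'] at ha' hb'
    rw [abs_eq_zero] at ha' hb'
    subst ha' hb'
    simp [Real.zero_rpow hp0.ne']
  · set s := |a| ^ p + |b| ^ p with hs
    have hspos : 0 < s := lt_of_le_of_ne (by positivity) (Ne.symm h0)
    set t := s ^ (1 / p) with ht
    have htpos : 0 < t := Real.rpow_pos_of_pos hspos _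
    have htp : t ^ p = s := by
      rw [ht, ← Real.rpow_mul hspos.le, one_div, inv_mul_cancel₀ hp0.ne', Real.rpow_one]
    have hscale : ∀ x : ℝ, |x / t| ^ p = |x| ^ p / s := by
      intro x
      rw [abs_div, abs_of_pos htpos, Real.div_rpow (abs_nonneg _) htpos.le, htp]
    have h1 := hnorm (a / t, b / t) (by
      simp only [hscale]
      rw [← add_div, ← hs, div_self h0])
    simp only at h1
    rw [← sub_div, ← add_div, div_right_comm, hscale, hscale] at h1
    have h2 := mul_le_mul_of_nonneg_right h1 hspos.le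
    rw [div_mul_cancel₀ _ h0] at h2
    calc |a - b| ^ p ≤ _ := h2
      _ = _ := by
        field_simp

/-! ### Uniform convexity in integrated form -/

/-- A quantitative uniform convexity property. -/
def UC (E : Type*) [NormedAddCommGroup E] [NormedSpace ℝ E] (p : ℝ) : Prop :=
  ∀ ε : ℝ, 0 < ε → ∃ C : ℝ, 0 ≤ C ∧ ∀ f g : E, ‖f - g‖ ^ p ≤ ε * (‖f‖ ^ p + ‖g‖ ^ p) +
    C * ((‖f‖ ^ p + ‖g‖ ^ p) / 2 - ‖(2⁻¹ : ℝ) • (f + g)‖ ^ p)

theorem norm_rpow_Lp {Ω : Type*} [MeasurableSpace Ω] {μ : Measure Ω} {p : ℝ≥0∞} [Fact (1 ≤ p)]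
    (hp : p ≠ ∞) (f : Lp ℝ p μ) : ‖f‖ ^ p.toReal = ∫ x, |f x| ^ p.toReal ∂μ := by
  have hp0 : p ≠ 0 := (lt_of_lt_of_le zero_lt_one (Fact.out (p := 1 ≤ p))).ne'
  have hpt : 0 < p.toReal := ENNReal.toReal_pos hp0 hp
  have h := (Lp.memLp f).eLpNorm_eq_integral_rpow_norm hp0 hp
  rw [Lp.norm_def, h, ENNReal.toReal_ofReal (by positivity), ← Real.rpow_mul (by positivity),
    inv_mul_cancel₀ hpt.ne', Real.rpow_one]
  rfl

theorem uc_Lp {Ω : Type*} [MeasurableSpace Ω] (μ : Measure Ω) (p : ℝ≥0∞) [Fact (1 ≤ p)]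
    (h1 : 1 < p) (hp : p ≠ ∞) : UC (Lp ℝ p μ) p.toReal := by
  intro ε hε
  have hp0 : p ≠ 0 := (lt_trans zero_lt_one h1).ne'
  have hr : 1 < p.toReal := by
    rw [← ENNReal.toReal_one]
    exact (ENNReal.toReal_lt_toReal ENNReal.one_ne_top hp).2 h1
  obtain ⟨C, hC, hpw⟩ := pw hr hε
  refine ⟨C, hC, fun f g => ?_⟩
  have hint : ∀ h : Lp ℝ p μ, Integrable (fun x => |h x| ^ p.toReal) μ := fun h =>
    (Lp.memLp h).integrable_norm_rpow hp0 hp
  have e1 : ∫ x, |(f - g) x| ^ p.toReal ∂μ = ∫ x, |f x - g x| ^ p.toReal ∂μ := by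
    refine integral_congr_ae ?_
    filter_upwards [Lp.coeFn_sub f g] with x hx
    rw [hx, Pi.sub_apply]
  have e2 : ∫ x, |((2⁻¹ : ℝ) • (f + g)) x| ^ p.toReal ∂μ =
      ∫ x, |(f x + g x) / 2| ^ p.toReal ∂μ := by
    refine integral_congr_ae ?_
    filter_upwards [Lp.coeFn_smul (2⁻¹ : ℝ) (f + g), Lp.coeFn_add f g] with x hx hx'
    rw [hx, Pi.smul_apply, hx', Pi.add_apply, smul_eq_mul, inv_mul_eq_div]
  have i1 : Integrable (fun x => |f x - g x| ^ p.toReal) μ := by
    refine (hint (f - g)).congr ?_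
    filter_upwards [Lp.coeFn_sub f g] with x hx
    rw [hx, Pi.sub_apply]
  have i2 : Integrable (fun x => |(f x + g x) / 2| ^ p.toReal) μ := by
    refine (hint ((2⁻¹ : ℝ) • (f + g))).congr ?_
    filter_upwards [Lp.coeFn_smul (2⁻¹ : ℝ) (f + g), Lp.coeFn_add f g] with x hx hx'
    rw [hx, Pi.smul_apply, hx', Pi.add_apply, smul_eq_mul, inv_mul_eq_div]
  rw [norm_rpow_Lp hp, norm_rpow_Lp hp, norm_rpow_Lp hp, norm_rpow_Lp hp, e1, e2]
  have i3 : Integrable (fun x => |f x| ^ p.toReal + |g x| ^ p.toReal) μ := (hint f).add (hint g)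
  have i4 : Integrable (fun x => (|f x| ^ p.toReal + |g x| ^ p.toReal) / 2) μ := i3.div_const 2
  have i5 : Integrable (fun x => ε * (|f x| ^ p.toReal + |g x| ^ p.toReal)) μ := i3.const_mul ε
  have i6 : Integrable (fun x => (|f x| ^ p.toReal + |g x| ^ p.toReal) / 2 -
    |(f x + g x) / 2| ^ p.toReal) μ := i4.sub i2
  have i7 : Integrable (fun x => C * ((|f x| ^ p.toReal + |g x| ^ p.toReal) / 2 -
    |(f x + g x) / 2| ^ p.toReal)) μ := i6.const_mul C
  calc ∫ x, |f x - g x| ^ p.toReal ∂μ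
      ≤ ∫ x, (ε * (|f x| ^ p.toReal + |g x| ^ p.toReal) +
        C * ((|f x| ^ p.toReal + |g x| ^ p.toReal) / 2 - |(f x + g x) / 2| ^ p.toReal)) ∂μ :=
        integral_mono i1 (i5.add i7) fun x => hpw (f x) (g x)
    _ = _ := by
        rw [integral_add i5 i7, integral_const_mul,
          integral_const_mul, integral_sub i4 i2, integral_div,
          integral_add (hint f) (hint g)]

theorem uc_lp (p : ℝ≥0∞) [Fact (1 ≤ p)] (h1 : 1 < p) (hp : p ≠ ∞) :
    UC (lp (fun _ : ℕ => ℝ) p) p.toReal := by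
  intro ε hε
  have hp0 : p ≠ 0 := (lt_trans zero_lt_one h1).ne'
  have hpt : 0 < p.toReal := ENNReal.toReal_pos hp0 hp
  have hr : 1 < p.toReal := by
    rw [← ENNReal.toReal_one]
    exact (ENNReal.toReal_lt_toReal ENNReal.one_ne_top hp).2 h1
  obtain ⟨C, hC, hpw⟩ := pw hr hε
  refine ⟨C, hC, fun f g => ?_⟩
  have hsum : ∀ h : lp (fun _ : ℕ => ℝ) p, Summable fun i => ‖h i‖ ^ p.toReal := fun h =>
    (lp.memℓp h).summable hpt
  rw [lp.norm_rpow_eq_tsum hpt, lp.norm_rpow_eq_tsum hpt, lp.norm_rpow_eq_tsum hpt,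
    lp.norm_rpow_eq_tsum hpt]
  have i3 := (hsum f).add (hsum g)
  have i4 := i3.div_const 2
  have i2 := hsum ((2⁻¹ : ℝ) • (f + g))
  calc ∑' i, ‖(f - g) i‖ ^ p.toReal
      ≤ ∑' i, (ε * (‖f i‖ ^ p.toReal + ‖g i‖ ^ p.toReal) +
        C * ((‖f i‖ ^ p.toReal + ‖g i‖ ^ p.toReal) / 2 -
          ‖((2⁻¹ : ℝ) • (f + g)) i‖ ^ p.toReal)) := by
        refine (hsum (f - g)).tsum_le_tsum (fun i => ?_)
          ((i3.mul_left ε).add ((i4.sub i2).mul_left C))
        have := hpw (f i) (g i)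
        simp only [lp.coeFn_sub, Pi.sub_apply, lp.coeFn_smul, lp.coeFn_add, Pi.smul_apply,
          Pi.add_apply, smul_eq_mul, Real.norm_eq_abs, inv_mul_eq_div]
        exact this
    _ = _ := by
        rw [Summable.tsum_add (i3.mul_left ε) ((i4.sub i2).mul_left C), tsum_mul_left,
          tsum_mul_left, Summable.tsum_sub i4 i2, tsum_div_const,
          Summable.tsum_add (hsum f) (hsum g)]

/-! ### Nested sequences of convex sets -/

theorem nested {E : Type*} [NormedAddCommGroup E] [NormedSpace ℝ E] [CompleteSpace E] {p : ℝ}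
    (hp : 1 < p) (hE : UC E p) (C : ℕ → Set E) (hanti : Antitone C) (hne : ∀ n, (C n).Nonempty)
    (hcl : ∀ n, IsClosed (C n)) (hcv : ∀ n, Convex ℝ (C n)) (hbd : Bornology.IsBounded (C 0)) :
    ∃ x, ∀ n, x ∈ C n := by
  have hp0 : 0 < p := by linarith
  obtain ⟨B, hB0, hB⟩ := hbd.exists_pos_norm_le
  let d : ℕ → ℝ := fun n => Metric.infDist 0 (C n)
  have hdmono : Monotone d := fun m n hmn =>
    Metric.infDist_le_infDist_of_subset (hanti hmn) (hne n)
  have hdle : ∀ n, ∀ z ∈ C n, d n ≤ ‖z‖ := by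
    intro n z hz
    have := Metric.infDist_le_dist_of_mem (x := (0 : E)) hz
    rwa [dist_zero_left] at this
  have hd0 : ∀ n, 0 ≤ d n := fun n => Metric.infDist_nonneg
  have hdB : ∀ n, d n ≤ B := by
    intro n
    obtain ⟨z, hz⟩ := hne n
    exact (hdle n z hz).trans (hB z (hanti (Nat.zero_le n) hz))
  have hz : ∀ n : ℕ, ∃ z ∈ C n, ‖z‖ < d n + 1 / ((n : ℝ) + 1) := by
    intro n
    have h1 : Metric.infDist 0 (C n) < d n + 1 / ((n : ℝ) + 1) := by
      have : (0 : ℝ) < 1 / ((n : ℝ) + 1) := Nat.one_div_pos_of_nat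
      change d n < _
      linarith
    obtain ⟨z, hz, hlt⟩ := (Metric.infDist_lt_iff (hne n)).1 h1
    exact ⟨z, hz, by rwa [dist_zero_left] at hlt⟩
  choose z hzC hzlt using hz
  have hzB : ∀ n, ‖z n‖ ≤ B := fun n => hB _ (hanti (Nat.zero_le n) (hzC n))
  let D : ℝ := ⨆ n, d n
  have hdD : Tendsto d atTop (𝓝 D) :=
    tendsto_atTop_ciSup hdmono ⟨B, by rintro _ ⟨n, rfl⟩; exact hdB n⟩
  have hzD : Tendsto (fun n => ‖z n‖) atTop (𝓝 D) := by
    refine tendsto_of_tendsto_of_tendsto_of_le_of_le hdD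
      (g := d) (h := fun n => d n + 1 / ((n : ℝ) + 1)) ?_ (fun n => hdle n _ (hzC n))
      (fun n => (hzlt n).le)
    simpa using hdD.add tendsto_one_div_add_atTop_nhds_zero_nat
  have hdp : Tendsto (fun n => d n ^ p) atTop (𝓝 (D ^ p)) :=
    hdD.rpow_const (Or.inr hp0.le)
  have hzp : Tendsto (fun n => ‖z n‖ ^ p) atTop (𝓝 (D ^ p)) :=
    hzD.rpow_const (Or.inr hp0.le)
  have hcau : CauchySeq z := by
    rw [Metric.cauchySeq_iff']
    intro η hη
    have hηp : 0 < η ^ p := Real.rpow_pos_of_pos hη p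
    have hBp : 0 < B ^ p := Real.rpow_pos_of_pos hB0 p
    set ε : ℝ := η ^ p / (4 * B ^ p) with hεdef
    have hε : 0 < ε := by positivity
    obtain ⟨K, hK0, hK⟩ := hE ε hε
    have hlim : ∀ᶠ n in atTop, K * (‖z n‖ ^ p - d n ^ p) < η ^ p / 4 ∧
        K * (D ^ p - d n ^ p) < η ^ p / 8 ∧ K * |‖z n‖ ^ p - D ^ p| < η ^ p / 8 := by
      have t1 : Tendsto (fun n => K * (‖z n‖ ^ p - d n ^ p)) atTop (𝓝 (K * (D ^ p - D ^ p))) :=
        (hzp.sub hdp).const_mul K
      have t2 : Tendsto (fun n => K * (D ^ p - d n ^ p)) atTop (𝓝 (K * (D ^ p - D ^ p))) :=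
        (tendsto_const_nhds.sub hdp).const_mul K
      have t3 : Tendsto (fun n => K * |‖z n‖ ^ p - D ^ p|) atTop (𝓝 (K * |D ^ p - D ^ p|)) :=
        ((hzp.sub tendsto_const_nhds).abs).const_mul K
      rw [sub_self, mul_zero] at t1 t2
      rw [sub_self, abs_zero, mul_zero] at t3
      exact (t1.eventually_lt_const (by positivity)).and
        ((t2.eventually_lt_const (by positivity)).and (t3.eventually_lt_const (by positivity)))
    obtain ⟨N, hN⟩ := eventually_atTop.1 hlim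
    refine ⟨N, fun m hm => ?_⟩
    have hmid : d N ≤ ‖(2⁻¹ : ℝ) • (z m + z N)‖ := by
      refine hdle N _ ?_
      rw [smul_add]
      exact (hcv N) (hanti hm (hzC m)) (hzC N) (by norm_num) (by norm_num) (by norm_num)
    have hmidp : d N ^ p ≤ ‖(2⁻¹ : ℝ) • (z m + z N)‖ ^ p :=
      Real.rpow_le_rpow (hd0 N) hmid hp0.le
    have h1 := hK (z m) (z N)
    have hzmB : ‖z m‖ ^ p ≤ B ^ p := Real.rpow_le_rpow (norm_nonneg _) (hzB m) hp0.le
    have hzNB : ‖z N‖ ^ p ≤ B ^ p := Real.rpow_le_rpow (norm_nonneg _) (hzB N) hp0.le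
    have h2 : ε * (‖z m‖ ^ p + ‖z N‖ ^ p) ≤ η ^ p / 2 := by
      calc ε * (‖z m‖ ^ p + ‖z N‖ ^ p) ≤ ε * (B ^ p + B ^ p) := by gcongr
        _ = η ^ p / 2 := by
          rw [hεdef]
          field_simp
          ring
    obtain ⟨hN1, hN2, hN3⟩ := hN N le_rfl
    obtain ⟨_, _, hm3⟩ := hN m hm
    have h3 : K * ((‖z m‖ ^ p + ‖z N‖ ^ p) / 2 - ‖(2⁻¹ : ℝ) • (z m + z N)‖ ^ p) <
        η ^ p / 2 := by
      have e1 : K * ((‖z m‖ ^ p + ‖z N‖ ^ p) / 2 - ‖(2⁻¹ : ℝ) • (z m + z N)‖ ^ p) ≤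
          K * ((‖z m‖ ^ p + ‖z N‖ ^ p) / 2 - d N ^ p) := by
        gcongr
      have e2 : K * ((‖z m‖ ^ p + ‖z N‖ ^ p) / 2 - d N ^ p) =
          (K * (‖z m‖ ^ p - D ^ p) + K * (D ^ p - d N ^ p) + K * (‖z N‖ ^ p - d N ^ p)) / 2 := by
        ring
      have e3 : K * (‖z m‖ ^ p - D ^ p) ≤ K * |‖z m‖ ^ p - D ^ p| :=
        mul_le_mul_of_nonneg_left (le_abs_self _) hK0
      have : 0 < η ^ p := hηp
      linarith
    rw [dist_eq_norm]
    have h4 : ‖z m - z N‖ ^ p < η ^ p := by linarith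
    exact (Real.rpow_lt_rpow_iff (norm_nonneg _) hη.le hp0).1 h4
  obtain ⟨x, hx⟩ := cauchySeq_tendsto_of_complete hcau
  refine ⟨x, fun n => (hcl n).mem_of_tendsto hx ?_⟩
  filter_upwards [eventually_ge_atTop n] with m hm
  exact hanti hm (hzC m)

/-! ### The main argument -/

theorem separated_seq {E : Type*} [NormedAddCommGroup E] [CompleteSpace E] {A : Set E}
    (hcl : IsClosed A) (hnc : ¬ IsCompact A) :
    ∃ ε : ℝ, 0 < ε ∧ ∃ x : ℕ → E, (∀ n, x n ∈ A) ∧ ∀ m n, m < n → ε ≤ dist (x m) (x n) := by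
  have h1 : ¬ TotallyBounded A := fun h => hnc (h.isCompact_of_isClosed hcl)
  rw [Metric.totallyBounded_iff] at h1
  push Not at h1
  obtain ⟨ε, hε, h1⟩ := h1
  refine ⟨ε, hε, ?_⟩
  have h2 : ∀ s : Finset E, (∀ y ∈ s, y ∈ A) → ∃ y, y ∈ A ∧ ∀ z ∈ s, ε ≤ dist z y := by
    intro s _
    obtain ⟨y, hyA, hy⟩ := Set.not_subset.1 (h1 s s.finite_toSet)
    refine ⟨y, hyA, fun z hz => ?_⟩
    simp only [Set.mem_iUnion, not_exists, Metric.mem_ball, not_lt] at hy
    rw [dist_comm]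
    exact hy z hz
  obtain ⟨x, hx1, hx2⟩ := exists_seq_of_forall_finset_exists (fun y => y ∈ A)
    (fun z y => ε ≤ dist z y) h2
  exact ⟨x, hx1, hx2⟩

theorem isClosed_sep {E : Type*} [NormedAddCommGroup E] {ε : ℝ} (hε : 0 < ε) {x : ℕ → E}
    (hx : ∀ m n, m < n → ε ≤ dist (x m) (x n)) (s : Set ℕ) : IsClosed (x '' s) := by
  have h := Metric.isClosed_of_pairwise_le_dist (s := x '' s) hε (by
    rintro _ ⟨m, _, rfl⟩ _ ⟨n, _, rfl⟩ hne
    rcases lt_trichotomy m n with h | h | h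
    · exact hx m n h
    · exact absurd (by rw [h]) hne
    · rw [dist_comm]
      exact hx n m h)
  exact h

theorem main {E : Type*} [NormedAddCommGroup E] [NormedSpace ℝ E] [CompleteSpace E]
    (hE : ∀ C : ℕ → Set E, Antitone C → (∀ n, (C n).Nonempty) → (∀ n, IsClosed (C n)) →
      (∀ n, Convex ℝ (C n)) → Bornology.IsBounded (C 0) → ∃ x, ∀ n, x ∈ C n)
    {A : Set E} (hcl : IsClosed A) (hbd : Bornology.IsBounded A) (hcv : Convex ℝ A)
    (hμ : MuCompact A) : IsCompact A := by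
  by_contra hnc
  obtain ⟨ε, hε, x, hxA, hsep⟩ := separated_seq hcl hnc
  let _ : MeasurableSpace A := borel A
  have _ : BorelSpace A := ⟨rfl⟩
  let D : ℕ → Set E := fun n => x '' Set.Ici n
  have hDA : ∀ n, D n ⊆ A := by
    rintro n _ ⟨m, _, rfl⟩
    exact hxA m
  have hDcl : ∀ n, IsClosed (D n) := fun n => isClosed_sep hε hsep _
  have hDne : ∀ n, (D n).Nonempty := fun n => ⟨x n, n, Set.mem_Ici.2 le_rfl, rfl⟩
  let C : ℕ → Set E := fun n => closure (convexHull ℝ (D n))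
  have hCA : ∀ n, C n ⊆ A := fun n =>
    closure_minimal (convexHull_min (hDA n) hcv) hcl
  obtain ⟨w, hw⟩ := hE C
    (fun m n hmn => closure_mono (convexHull_mono (Set.image_mono (Set.Ici_subset_Ici.2 hmn))))
    (fun n => (hDne n).mono ((subset_convexHull ℝ _).trans subset_closure))
    (fun n => isClosed_closure) (fun n => (convex_convexHull ℝ _).closure)
    (hbd.subset (hCA 0))
  have hy : ∀ n : ℕ, ∃ y ∈ convexHull ℝ (D n), dist y w < 1 / ((n : ℝ) + 1) := by
    intro n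
    obtain ⟨y, hy, hlt⟩ := Metric.mem_closure_iff.1 (hw n) (1 / ((n : ℝ) + 1))
      Nat.one_div_pos_of_nat
    exact ⟨y, hy, by rwa [dist_comm]⟩
  choose y hyC hyw using hy
  have hylim : Tendsto y atTop (𝓝 w) := by
    rw [tendsto_iff_dist_tendsto_zero]
    exact squeeze_zero (fun _ => dist_nonneg) (fun n => (hyw n).le)
      tendsto_one_div_add_atTop_nhds_zero_nat
  -- measures carried by `D n` with barycentre `y n`
  have hrep : ∀ n, ∃ μ : ProbabilityMeasure A, ∫ z : A, (z : E) ∂(μ : Measure A) = y n ∧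
      (μ : Measure A) {z : A | (z : E) ∉ D n} = 0 := by
    intro n
    obtain ⟨ι, _, c, z, hc0, hc1, hz, hyn⟩ := mem_convexHull_iff_exists_fintype.1 (hyC n)
    let z' : ι → A := fun i => ⟨z i, hDA n (hz i)⟩
    let ν : Measure A := ∑ i, ENNReal.ofReal (c i) • Measure.dirac (z' i)
    have hν : IsProbabilityMeasure ν := by
      constructor
      simp only [ν, Measure.coe_finsetSum, Finset.sum_apply, Measure.smul_apply,
        measure_univ, smul_eq_mul, mul_one]
      rw [← ENNReal.ofReal_sum_of_nonneg fun i _ => hc0 i, hc1, ENNReal.ofReal_one]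
    refine ⟨⟨ν, hν⟩, ?_, ?_⟩
    · change ∫ z : A, (z : E) ∂ν = y n
      rw [integral_finsetSum_measure]
      · rw [← hyn]
        refine Finset.sum_congr rfl fun i _ => ?_
        rw [integral_smul_measure, integral_dirac, ENNReal.toReal_ofReal (hc0 i)]
      · intro i _
        exact (integrable_dirac (by simp)).smul_measure ENNReal.ofReal_ne_top
    · change ν {z : A | (z : E) ∉ D n} = 0
      simp only [ν, Measure.coe_finsetSum, Finset.sum_apply, Measure.smul_apply, smul_eq_mul]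
      refine Finset.sum_eq_zero fun i _ => ?_
      rw [Measure.dirac_apply, Set.indicator_of_notMem, mul_zero]
      simpa [z'] using hz i
  choose ν hνy hνD using hrep
  have hyA : ∀ n, y n ∈ A := fun n => hCA n (subset_closure (hyC n))
  have hwA : w ∈ A := hCA 0 (hw 0)
  have hK := hμ (insert w (Set.range y)) hylim.isCompact_insert_range (by
    rintro _ (rfl | ⟨n, rfl⟩)
    · exact hwA
    · exact hyA n)
  obtain ⟨μ, _, hcl⟩ := hK.exists_mapClusterPt (f := atTop) (u := ν) (by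
    rw [le_principal_iff, mem_map]
    refine Filter.univ_mem' fun n => ?_
    change ∫ z : A, (z : E) ∂(ν n : Measure A) ∈ insert w (Set.range y)
    rw [hνy n]
    exact Set.mem_insert_of_mem _ ⟨n, rfl⟩)
  have hfull : ∀ n, ∀ᵐ z : A ∂(μ : Measure A), (z : E) ∈ D n := by
    intro n
    let f : A →ᵇ ℝ := BoundedContinuousFunction.ofNormedAddCommGroup
      (fun z : A => min 1 (Metric.infDist (z : E) (D n)))
      (continuous_const.min ((Metric.continuous_infDist_pt _).comp continuous_subtype_val)) 1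
      (fun z => by
        rw [Real.norm_eq_abs, abs_of_nonneg (le_min zero_le_one Metric.infDist_nonneg)]
        exact min_le_left _ _)
    have hf0 : ∀ z, 0 ≤ f z := fun z => le_min zero_le_one Metric.infDist_nonneg
    have hfD : ∀ z : A, (z : E) ∈ D n → f z = 0 := by
      intro z hz
      change min 1 (Metric.infDist (z : E) (D n)) = 0
      rw [Metric.infDist_zero_of_mem hz]
      simp
    have hcont : Continuous fun κ : ProbabilityMeasure A => ∫ z, f z ∂(κ : Measure A) :=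
      ProbabilityMeasure.continuous_integral_boundedContinuousFunction f
    have hzero : ∀ m, n ≤ m → ∫ z, f z ∂(ν m : Measure A) = 0 := by
      intro m hm
      refine integral_eq_zero_of_ae ?_
      have : ∀ᵐ z : A ∂(ν m : Measure A), (z : E) ∈ D m := hνD m
      filter_upwards [this] with z hz
      exact hfD z (Set.image_mono (Set.Ici_subset_Ici.2 hm) hz)
    have hint : ∫ z, f z ∂(μ : Measure A) = 0 := by
      by_contra hne
      have h1 := (hcl.continuousAt_comp hcont.continuousAt).frequently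
        (isOpen_ne.mem_nhds hne)
      refine h1 ?_
      filter_upwards [eventually_ge_atTop n] with m hm
      simpa using hzero m hm
    rw [integral_eq_zero_iff_of_nonneg (fun z => hf0 z) (f.integrable _)] at hint
    filter_upwards [hint] with z hz
    have h2 : min 1 (Metric.infDist (z : E) (D n)) = 0 := hz
    have h3 : Metric.infDist (z : E) (D n) = 0 := by
      rcases min_choice 1 (Metric.infDist (z : E) (D n)) with h | h
      · rw [h] at h2
        norm_num at h2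
      · rw [← h, h2]
    rw [(hDcl n).mem_iff_infDist_zero (hDne n)]
    exact h3
  have hall : ∀ᵐ z : A ∂(μ : Measure A), ∀ n, (z : E) ∈ D n := ae_all_iff.2 hfull
  obtain ⟨z, hz⟩ := hall.exists
  obtain ⟨m, -, hm⟩ := hz 0
  obtain ⟨k, hk, hk'⟩ := hz (m + 1)
  have h4 := hsep m k (lt_of_lt_of_le (Nat.lt_succ_self m) hk)
  rw [hm, hk', dist_self] at h4
  linarith

/-- Let `1 < p < ∞`. In the real space `ℓ_p`, and in `L_p` of every measure space (in particular in
`L_p[0,1]`), each closed bounded convex set that is μ-compact is norm compact. -/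
theorem result (p : ℝ≥0∞) [Fact (1 ≤ p)] (h1 : 1 < p) (hp : p < ∞) :
    MuCompactSetsCompact (lp (fun _ : ℕ => ℝ) p) ∧
    MuCompactSetsCompact (Lp ℝ p (volume.restrict (Set.Icc (0 : ℝ) 1))) ∧
    ∀ (Ω : Type) [MeasurableSpace Ω] (κ : Measure Ω), MuCompactSetsCompact (Lp ℝ p κ) := by
  have hr : 1 < p.toReal := by
    rw [← ENNReal.toReal_one]
    exact (ENNReal.toReal_lt_toReal ENNReal.one_ne_top hp.ne).2 h1
  refine ⟨fun A hcl hbd hcv hμ => ?_, fun A hcl hbd hcv hμ => ?_,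
    fun Ω _ κ A hcl hbd hcv hμ => ?_⟩
  · exact main (nested hr (uc_lp p h1 hp.ne)) hcl hbd hcv hμ
  · exact main (nested hr (uc_Lp _ p h1 hp.ne)) hcl hbd hcv hμ
  · exact main (nested hr (uc_Lp κ p h1 hp.ne)) hcl hbd hcv hμ

end Pool.Agent.Results.MP_5b7a98_an.LpCompact
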